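import Mathlib

set_option autoImplicit false

/-!
# Super Delta-points are stable along rays
-/

namespace Pool.Agent.Results.MP_48b6db_an.SuperDeltaRays

variable (𝕜 : Type*) [RCLike 𝕜] {X : Type*} [NormedAddCommGroup X] [NormedSpace 𝕜 X]

/-- `V` is a relatively weakly open subset of the closed unit ball of `X`: a nonempty set of the
form `B_X ∩ U` with `U` open in the weak topology of `X`. -/
def RelWeaklyOpen (V : Set X) : Prop :=
  V.Nonempty ∧ ∃ U : Set (WeakSpace 𝕜 X), IsOpen U ∧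
    V = {y : X | ‖y‖ ≤ 1 ∧ toWeakSpace 𝕜 X y ∈ U}

/-- The point `x` of the closed unit ball is a super Delta-point: for every relatively weakly open
subset `V` of the unit ball that contains `x`, the supremum of `‖x - y‖` over `y ∈ V` is
`1 + ‖x‖`. -/
def IsSuperDeltaPoint (x : X) : Prop :=
  ‖x‖ ≤ 1 ∧ ∀ V : Set X, RelWeaklyOpen 𝕜 V → x ∈ V →
    IsLUB ((fun y => ‖x - y‖) '' V) (1 + ‖x‖)

/-- **Theorem.** If `x` is a super Delta-point of norm one, then `c • x` is a super Delta-point for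
every scalar `c` with `‖c‖ ≤ 1`; in particular `r • x` is one for every `0 < r < 1`. -/
theorem result (𝕜 : Type*) [RCLike 𝕜] (X : Type*) [NormedAddCommGroup X] [NormedSpace 𝕜 X]
    [CompleteSpace X] (x : X) (hx : ‖x‖ = 1) (h : IsSuperDeltaPoint 𝕜 x) (c : 𝕜)
    (hc : ‖c‖ ≤ 1) : IsSuperDeltaPoint 𝕜 (c • x) := by
  have hcx : ‖c • x‖ = ‖c‖ := by rw [norm_smul, hx, mul_one]
  -- a unimodular scalar `w` with `c = ‖c‖ w`
  obtain ⟨w, hw1, hw⟩ : ∃ w : 𝕜, ‖w‖ = 1 ∧ c = ((‖c‖ : ℝ) : 𝕜) * w := by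
    by_cases h0 : c = 0
    · exact ⟨1, by simp, by simp [h0]⟩
    · have hne : ((‖c‖ : ℝ) : 𝕜) ≠ 0 := by
        simpa using h0
      refine ⟨c / ((‖c‖ : ℝ) : 𝕜), ?_, ?_⟩
      · rw [norm_div, RCLike.norm_ofReal, abs_norm, div_self (norm_ne_zero_iff.mpr h0)]
      · field_simp
  refine ⟨by rw [hcx]; exact hc, ?_⟩
  rintro V ⟨-, U, hU, rfl⟩ hxV
  set l : ℝ := (1 + ‖c‖) / 2 with hl
  have hl0 : 0 < l := by have := norm_nonneg c; rw [hl]; linarith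
  have hl1 : l ≤ 1 := by rw [hl]; linarith
  -- the affine map `y ↦ l w y - (1 - l) w x`
  let φ : X → X := fun y => ((l : 𝕜) * w) • y - (((1 - l : ℝ) : 𝕜) * w) • x
  have hφn : ∀ y : X, ‖y‖ ≤ 1 → ‖φ y‖ ≤ 1 := by
    intro y hy
    calc ‖φ y‖ ≤ ‖((l : 𝕜) * w) • y‖ + ‖(((1 - l : ℝ) : 𝕜) * w) • x‖ := norm_sub_le _ _
      _ = l * ‖y‖ + (1 - l) := by
          rw [norm_smul, norm_smul, norm_mul, norm_mul, hw1, hx, RCLike.norm_ofReal,
            RCLike.norm_ofReal, abs_of_pos hl0, abs_of_nonneg (by linarith)]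
          ring
      _ ≤ 1 := by nlinarith
  have hφx : φ x = c • x := by
    change ((l : 𝕜) * w) • x - (((1 - l : ℝ) : 𝕜) * w) • x = c • x
    rw [← sub_smul, ← sub_mul, ← RCLike.ofReal_sub]
    have : l - (1 - l) = ‖c‖ := by rw [hl]; ring
    rw [this, ← hw]
  have hφd : ∀ y : X, ‖c • x - φ y‖ = l * ‖x - y‖ := by
    intro y
    rw [← hφx]
    change ‖(((l : 𝕜) * w) • x - (((1 - l : ℝ) : 𝕜) * w) • x) -
      (((l : 𝕜) * w) • y - (((1 - l : ℝ) : 𝕜) * w) • x)‖ = _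
    rw [sub_sub_sub_cancel_right, ← smul_sub, norm_smul, norm_mul, hw1, RCLike.norm_ofReal,
      abs_of_pos hl0, mul_one]
  let U' : Set (WeakSpace 𝕜 X) :=
    (fun z => ((l : 𝕜) * w) • z - (((1 - l : ℝ) : 𝕜) * w) • toWeakSpace 𝕜 X x) ⁻¹' U
  have hU' : IsOpen U' := by
    apply hU.preimage
    exact (continuous_const_smul _).sub continuous_const
  have hmem : ∀ y : X, toWeakSpace 𝕜 X y ∈ U' ↔ toWeakSpace 𝕜 X (φ y) ∈ U := by
    intro y
    change _ ∈ U ↔ _ ∈ U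
    rw [map_sub, map_smul, map_smul]
  have hxV' : x ∈ {y : X | ‖y‖ ≤ 1 ∧ toWeakSpace 𝕜 X y ∈ U'} := by
    refine ⟨hx.le, ?_⟩
    rw [hmem, hφx]
    exact hxV.2
  have hlub := h.2 _ ⟨⟨x, hxV'⟩, U', hU', rfl⟩ hxV'
  rw [hx] at hlub
  constructor
  · rintro _ ⟨y, hy, rfl⟩
    calc ‖c • x - y‖ ≤ ‖c • x‖ + ‖y‖ := norm_sub_le _ _
      _ ≤ 1 + ‖c • x‖ := by linarith [hy.1]
  · intro b hb
    rw [hcx]
    have hb2 : (1 : ℝ) + 1 ≤ b / l := by
      apply hlub.2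
      rintro _ ⟨y, hy, rfl⟩
      rw [le_div_iff₀ hl0, mul_comm]
      change l * ‖x - y‖ ≤ b
      rw [← hφd y]
      exact hb ⟨φ y, ⟨hφn y hy.1, (hmem y).1 hy.2⟩, rfl⟩
    rw [le_div_iff₀ hl0] at hb2
    have : (1 + 1) * l = 1 + ‖c‖ := by rw [hl]; ring
    linarith

end Pool.Agent.Results.MP_48b6db_an.SuperDeltaRays
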